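import Mathlib

set_option autoImplicit false

namespace Pool.Agent.Results.MP_763dcb_co.RegularCounterexample

/-- `S` is an independent dominating set of `G`: no two of its vertices are adjacent, and every
vertex outside `S` has a neighbour in `S`. -/
def IsIndepDominating {V : Type} (G : SimpleGraph V) (S : Set V) : Prop :=
  G.IsIndepSet S ∧ ∀ v, v ∉ S → ∃ u ∈ S, G.Adj v u

/-- The independent domination number `i(G)`: the minimum cardinality of an independent
dominating set. -/
noncomputable def indepDominationNumber {V : Type} (G : SimpleGraph V) : ℕ :=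
  sInf {k | ∃ S : Set V, IsIndepDominating G S ∧ S.ncard = k}

/-- `M` is a maximal matching of `G`: a matching that is not properly contained in a matching. -/
def IsMaximalMatching {V : Type} (G : SimpleGraph V) (M : G.Subgraph) : Prop :=
  Maximal (fun M' : G.Subgraph => M'.IsMatching) M

/-- The saturation number `μ*(G)`: the minimum number of edges of a maximal matching. -/
noncomputable def saturationNumber {V : Type} (G : SimpleGraph V) : ℕ :=
  sInf {k | ∃ M : G.Subgraph, IsMaximalMatching G M ∧ M.edgeSet.ncard = k}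

/-! ### The construction

Five boolean variables; for each variable `j` a complete bipartite graph `K_{12m,12m}` whose two
sides are the two literals of `j`; for each clause with three literals on distinct variables
(there are 80) `m` further vertices, each joined to the three sides of its literals. A clause
(and a 3-valued assignment) is coded by a number below 243 through its ternary digits. -/

/-- the `j`-th ternary digit of `a` -/
def dg (a j : ℕ) : ℕ := a / 3 ^ j % 3

/-- digit of a literal sign -/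
def code (b : Bool) : ℕ := if b then 1 else 2

/-- the number of nonzero digits among the first five -/
def wt (a : ℕ) : ℕ :=
  (if dg a 0 = 0 then 0 else 1) + (if dg a 1 = 0 then 0 else 1) + (if dg a 2 = 0 then 0 else 1) +
  (if dg a 3 = 0 then 0 else 1) + (if dg a 4 = 0 then 0 else 1)

abbrev Clause : Type := {a : Fin 243 // wt a.1 = 3}

abbrev Vert (m : ℕ) : Type := (((Fin 5 × Bool) × Fin (12 * m)) ⊕ (Clause × Fin m))

def adj (m : ℕ) : Vert m → Vert m → Prop
  | Sum.inl p, Sum.inl q => p.1.1 = q.1.1 ∧ p.1.2 ≠ q.1.2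
  | Sum.inl p, Sum.inr a => dg a.1.1 p.1.1 = code p.1.2
  | Sum.inr a, Sum.inl p => dg a.1.1 p.1.1 = code p.1.2
  | Sum.inr _, Sum.inr _ => False

instance (m : ℕ) : DecidableRel (adj m) := fun x y => by
  cases x <;> cases y <;> unfold adj <;> infer_instance

def gr (m : ℕ) : SimpleGraph (Vert m) where
  Adj := adj m
  symm := ⟨by
    intro x y h
    cases x <;> cases y <;> simp only [adj] at h ⊢ <;> try exact h
    exact ⟨h.1.symm, fun h' => h.2 h'.symm⟩⟩
  loopless := ⟨by
    intro x h
    cases x
    · exact h.2 rfl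
    · exact h⟩

instance (m : ℕ) : DecidableRel (gr m).Adj := inferInstanceAs (DecidableRel (adj m))

/-- the finite check: a partial assignment together with the clauses it leaves without a true
literal -/
theorem check : ∀ σ : Fin 243,
    61 ≤ 12 * (Finset.univ.filter (fun p : Fin 5 × Bool => dg σ p.1 = code p.2)).card +
      (Finset.univ.filter (fun a : Clause => ∀ j : Fin 5, dg a.1 j ≠ 0 → dg a.1 j ≠ dg σ j)).card := by
  decide +kernel

theorem cl_lit : ∀ p : Fin 5 × Bool,
    (Finset.univ.filter (fun a : Clause => dg a.1 p.1 = code p.2)).card = 24 := by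
  decide +kernel

theorem lit_cl : ∀ a : Clause,
    (Finset.univ.filter (fun p : Fin 5 × Bool => dg a.1 p.1 = code p.2)).card = 3 := by
  decide +kernel

/-! ### Regularity -/

theorem neighbor_inl (m : ℕ) (p : (Fin 5 × Bool) × Fin (12 * m)) :
    (gr m).neighborFinset (Sum.inl p) =
      ((({(p.1.1, !p.1.2)} : Finset (Fin 5 × Bool)) ×ˢ (Finset.univ : Finset (Fin (12 * m)))).disjSum
      ((Finset.univ.filter (fun a : Clause => dg a.1 p.1.1 = code p.1.2)) ×ˢ
        (Finset.univ : Finset (Fin m)))) := by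
  ext v
  rw [SimpleGraph.mem_neighborFinset]
  rcases v with q | a
  · rw [Finset.inl_mem_disjSum]
    simp only [Finset.mem_product, Finset.mem_singleton, Finset.mem_univ, and_true]
    show (p.1.1 = q.1.1 ∧ p.1.2 ≠ q.1.2) ↔ _
    rcases p with ⟨⟨pj, pb⟩, pi⟩
    rcases q with ⟨⟨qj, qb⟩, qi⟩
    simp only [Prod.mk.injEq]
    constructor
    · rintro ⟨h1, h2⟩
      refine ⟨h1.symm, ?_⟩
      cases pb <;> cases qb <;> simp_all
    · rintro ⟨h1, h2⟩
      refine ⟨h1.symm, ?_⟩
      cases pb <;> cases qb <;> simp_all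
  · rw [Finset.inr_mem_disjSum]
    simp only [Finset.mem_product, Finset.mem_filter, Finset.mem_univ, and_true, true_and]
    exact Iff.rfl

theorem neighbor_inr (m : ℕ) (a : Clause × Fin m) :
    (gr m).neighborFinset (Sum.inr a) =
      (((Finset.univ.filter (fun p : Fin 5 × Bool => dg a.1.1 p.1 = code p.2)) ×ˢ
        (Finset.univ : Finset (Fin (12 * m)))).disjSum (∅ : Finset (Clause × Fin m))) := by
  ext v
  rw [SimpleGraph.mem_neighborFinset]
  rcases v with q | b
  · rw [Finset.inl_mem_disjSum]
    simp only [Finset.mem_product, Finset.mem_filter, Finset.mem_univ, and_true, true_and]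
    exact Iff.rfl
  · rw [Finset.inr_mem_disjSum]
    simp only [Finset.notMem_empty, iff_false]
    exact fun h => h

theorem regular (m : ℕ) : (gr m).IsRegularOfDegree (36 * m) := by
  intro v
  rw [← SimpleGraph.card_neighborFinset_eq_degree]
  rcases v with p | a
  · rw [neighbor_inl, Finset.card_disjSum, Finset.card_product, Finset.card_product, cl_lit]
    simp only [Finset.card_singleton, Finset.card_univ, Fintype.card_fin]
    ring
  · rw [neighbor_inr, Finset.card_disjSum, Finset.card_product, lit_cl]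
    simp only [Finset.card_empty, Finset.card_univ, Fintype.card_fin]
    ring

/-! ### The matching -/

def mat (m : ℕ) : (gr m).Subgraph where
  verts := Set.range Sum.inl
  Adj x y := ∃ (j : Fin 5) (b : Bool) (i : Fin (12 * m)),
    x = Sum.inl ((j, b), i) ∧ y = Sum.inl ((j, !b), i)
  adj_sub := by
    rintro x y ⟨j, b, i, rfl, rfl⟩
    exact ⟨rfl, by cases b <;> simp⟩
  edge_vert := by
    rintro x y ⟨j, b, i, rfl, rfl⟩
    exact ⟨_, rfl⟩
  symm := ⟨by
    rintro x y ⟨j, b, i, rfl, rfl⟩
    exact ⟨j, !b, i, rfl, by simp⟩⟩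

theorem mat_matching (m : ℕ) : (mat m).IsMatching := by
  rintro v ⟨⟨⟨j, b⟩, i⟩, rfl⟩
  refine ⟨Sum.inl ((j, !b), i), ⟨j, b, i, rfl, rfl⟩, ?_⟩
  rintro y ⟨j', b', i', h1, rfl⟩
  simp only [Sum.inl.injEq, Prod.mk.injEq] at h1
  obtain ⟨⟨rfl, rfl⟩, rfl⟩ := h1
  rfl

theorem mat_maximal (m : ℕ) : IsMaximalMatching (gr m) (mat m) := by
  refine ⟨mat_matching m, ?_⟩
  intro M' hM' hle
  -- every vertex of `M'` is in `mat m`
  have hv : ∀ v, v ∈ M'.verts → v ∈ (mat m).verts := by
    intro v hv
    rcases v with p | a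
    · exact ⟨p, rfl⟩
    · exfalso
      obtain ⟨w, hw, -⟩ := hM' hv
      have hadj : (gr m).Adj (Sum.inr a) w := M'.adj_sub hw
      rcases w with q | b
      · have hq : (Sum.inl q : Vert m) ∈ (mat m).verts := ⟨q, rfl⟩
        obtain ⟨w', hw', -⟩ := mat_matching m hq
        have h1 : M'.Adj (Sum.inl q) w' := hle.2 hw'
        have h2 : M'.Adj (Sum.inl q) (Sum.inr a) := hw.symm
        have h3 := (hM' (hle.1 hq)).unique h1 h2
        obtain ⟨j, b, i, -, h5⟩ := hw'
        rw [h5] at h3
        exact absurd h3 (by simp)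
      · exact hadj
  refine ⟨hv, ?_⟩
  intro x y hxy
  have hx : x ∈ (mat m).verts := hv x (M'.edge_vert hxy)
  obtain ⟨w, hw, -⟩ := mat_matching m hx
  have h1 : M'.Adj x w := hle.2 hw
  have h3 := (hM' (hle.1 hx)).unique h1 hxy
  rw [← h3]
  exact hw

theorem mat_ncard (m : ℕ) : (mat m).edgeSet.ncard ≤ 60 * m := by
  have hsub : (mat m).edgeSet ⊆ (fun p : Fin 5 × Fin (12 * m) =>
      s((Sum.inl ((p.1, true), p.2) : Vert m), Sum.inl ((p.1, false), p.2))) '' Set.univ := by
    intro e he
    induction e using Sym2.ind with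
    | _ x y =>
      rw [SimpleGraph.Subgraph.mem_edgeSet] at he
      obtain ⟨j, b, i, rfl, rfl⟩ := he
      refine ⟨(j, i), trivial, ?_⟩
      cases b
      · exact Sym2.eq_swap
      · rfl
  refine (Set.ncard_le_ncard hsub (Set.toFinite _)).trans ?_
  refine (Set.ncard_image_le (Set.toFinite _)).trans ?_
  rw [Set.ncard_univ, Nat.card_prod, Nat.card_fin, Nat.card_fin]
  exact le_of_eq (by ring)

theorem saturation_le (m : ℕ) : saturationNumber (gr m) ≤ 60 * m :=
  le_trans (Nat.sInf_le (m := (mat m).edgeSet.ncard) ⟨mat m, mat_maximal m, rfl⟩) (mat_ncard m)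

/-! ### Independent dominating sets are large -/

theorem dg_surj (f : Fin 5 → ℕ) (hf : ∀ j, f j < 3) : ∃ σ : Fin 243, ∀ j : Fin 5, dg σ j = f j := by
  have h0 := hf 0
  have h1 := hf 1
  have h2 := hf 2
  have h3 := hf 3
  have h4 := hf 4
  refine ⟨⟨f 0 + 3 * f 1 + 9 * f 2 + 27 * f 3 + 81 * f 4, by omega⟩, ?_⟩
  intro j
  unfold dg
  fin_cases j <;> simp <;> omega

theorem indep_ge (m : ℕ) (S : Set (Vert m)) (hS : IsIndepDominating (gr m) S) :
    61 * m ≤ S.ncard := by
  classical
  obtain ⟨hind, hdom⟩ := hS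
  have hind' : ∀ x ∈ S, ∀ y ∈ S, ¬ (gr m).Adj x y := by
    intro x hx y hy hxy
    exact hind hx hy (fun h => (gr m).ne_of_adj hxy h) hxy
  -- the assignment
  let f : Fin 5 → ℕ := fun j =>
    if ∃ i, (Sum.inl ((j, true), i) : Vert m) ∈ S then 1
    else if ∃ i, (Sum.inl ((j, false), i) : Vert m) ∈ S then 2 else 0
  have hf3 : ∀ j, f j < 3 := by
    intro j
    simp only [f]
    split_ifs <;> norm_num
  obtain ⟨σ, hσ⟩ := dg_surj f hf3
  have hexcl : ∀ (j : Fin 5) (i i' : Fin (12 * m)), (Sum.inl ((j, true), i) : Vert m) ∈ S →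
      (Sum.inl ((j, false), i') : Vert m) ∈ S → False := by
    intro j i i' h1 h2
    exact hind' _ h1 _ h2 ⟨rfl, by simp⟩
  -- a side is used exactly when its literal is true
  have hside : ∀ (j : Fin 5) (b : Bool), dg σ j = code b ↔ ∃ i, (Sum.inl ((j, b), i) : Vert m) ∈ S := by
    intro j b
    rw [hσ j]
    simp only [f]
    cases b
    · constructor
      · intro h
        by_contra hne
        simp only [if_neg hne, code] at h
        split_ifs at h <;> simp_all
      · intro h
        obtain ⟨i', hi'⟩ := h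
        have h1 : ¬ ∃ i, (Sum.inl ((j, true), i) : Vert m) ∈ S := by
          rintro ⟨i, hi⟩
          exact hexcl j i i' hi hi'
        rw [if_neg h1, if_pos ⟨i', hi'⟩]
        rfl
    · constructor
      · intro h
        by_contra hne
        simp only [if_neg hne, code] at h
        split_ifs at h <;> simp_all
      · intro h
        rw [if_pos h]
        rfl
  -- twins
  have hfull : ∀ (j : Fin 5) (b : Bool), dg σ j = code b → ∀ i, (Sum.inl ((j, b), i) : Vert m) ∈ S := by
    intro j b h i
    obtain ⟨i₀, hi₀⟩ := (hside j b).1 h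
    by_contra hi
    obtain ⟨u, huS, hu⟩ := hdom _ hi
    refine hind' _ hi₀ u huS ?_
    rcases u with q | a
    · exact hu
    · exact hu
  have hclause : ∀ a : Clause, (∀ j : Fin 5, dg a.1 j ≠ 0 → dg a.1 j ≠ dg σ j) →
      ∀ k, (Sum.inr (a, k) : Vert m) ∈ S := by
    intro a ha k
    by_contra hk
    obtain ⟨u, huS, hu⟩ := hdom _ hk
    rcases u with ⟨⟨j, b⟩, i⟩ | a'
    · have h1 : dg a.1 j = code b := hu
      have h2 : dg σ j = code b := (hside j b).2 ⟨i, huS⟩
      refine ha j ?_ (h1.trans h2.symm)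
      rw [h1]
      cases b <;> simp [code]
    · exact hu
  -- the counted part of `S`
  let T : Finset (Vert m) :=
    ((Finset.univ.filter (fun p : Fin 5 × Bool => dg σ p.1 = code p.2)) ×ˢ
        (Finset.univ : Finset (Fin (12 * m)))).disjSum
    ((Finset.univ.filter (fun a : Clause => ∀ j : Fin 5, dg a.1 j ≠ 0 → dg a.1 j ≠ dg σ j)) ×ˢ
        (Finset.univ : Finset (Fin m)))
  have hTS : (T : Set (Vert m)) ⊆ S := by
    intro v hv
    rw [Finset.mem_coe] at hv
    rcases v with ⟨⟨j, b⟩, i⟩ | ⟨a, k⟩
    · rw [Finset.inl_mem_disjSum] at hv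
      simp only [Finset.mem_product, Finset.mem_filter, Finset.mem_univ, and_true, true_and] at hv
      exact hfull j b hv i
    · rw [Finset.inr_mem_disjSum] at hv
      simp only [Finset.mem_product, Finset.mem_filter, Finset.mem_univ, and_true, true_and] at hv
      exact hclause a hv k
  have hT : T.card = (12 * (Finset.univ.filter (fun p : Fin 5 × Bool => dg σ p.1 = code p.2)).card +
      (Finset.univ.filter (fun a : Clause => ∀ j : Fin 5, dg a.1 j ≠ 0 → dg a.1 j ≠ dg σ j)).card)
        * m := by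
    simp only [T]
    rw [Finset.card_disjSum, Finset.card_product, Finset.card_product, Finset.card_univ,
      Finset.card_univ, Fintype.card_fin, Fintype.card_fin]
    ring
  have h61 : 61 * m ≤ T.card := by
    rw [hT]
    exact Nat.mul_le_mul_right m (check σ)
  refine h61.trans ?_
  rw [← Set.ncard_coe_finset]
  exact Set.ncard_le_ncard hTS (Set.toFinite _)

theorem exists_indepDom (m : ℕ) (hm : 1 ≤ m) : ∃ S : Set (Vert m), IsIndepDominating (gr m) S := by
  refine ⟨Set.range Sum.inr, ?_, ?_⟩
  · rintro _ ⟨a, rfl⟩ _ ⟨b, rfl⟩ _ h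
    exact h
  · intro v hv
    rcases v with ⟨⟨j, b⟩, i⟩ | a
    · have h24 := cl_lit (j, b)
      have hne : (Finset.univ.filter (fun a : Clause => dg a.1 j = code b)).Nonempty := by
        rw [← Finset.card_pos]
        simp only at h24
        omega
      obtain ⟨a, ha⟩ := hne
      rw [Finset.mem_filter] at ha
      exact ⟨Sum.inr (a, ⟨0, hm⟩), ⟨_, rfl⟩, ha.2⟩
    · exact absurd ⟨a, rfl⟩ hv

theorem indepDom_ge (m : ℕ) (hm : 1 ≤ m) : 61 * m ≤ indepDominationNumber (gr m) := by
  obtain ⟨S, hS⟩ := exists_indepDom m hm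
  refine le_csInf ⟨_, S, hS, rfl⟩ ?_
  rintro k ⟨S', hS', rfl⟩
  exact indep_ge m S' hS'

/-! ### Connectivity -/

theorem link : ∀ p q : Fin 5 × Bool, p.1 ≠ q.1 →
    ∃ a : Clause, dg a.1 p.1 = code p.2 ∧ dg a.1 q.1 = code q.2 := by
  decide +kernel

theorem connected (m : ℕ) (hm : 1 ≤ m) : (gr m).Connected := by
  have hk : 0 < m := hm
  have h12 : 0 < 12 * m := by omega
  -- literals of different variables
  have h1 : ∀ (p q : Fin 5 × Bool) (i i' : Fin (12 * m)), p.1 ≠ q.1 →
      (gr m).Reachable (Sum.inl (p, i)) (Sum.inl (q, i')) := by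
    intro p q i i' hne
    obtain ⟨a, ha, hb⟩ := link p q hne
    have e1 : (gr m).Adj (Sum.inl (p, i)) (Sum.inr (a, ⟨0, hk⟩)) := ha
    have e2 : (gr m).Adj (Sum.inr (a, ⟨0, hk⟩)) (Sum.inl (q, i')) := hb
    exact e1.reachable.trans e2.reachable
  have h2 : ∀ (p q : Fin 5 × Bool) (i i' : Fin (12 * m)),
      (gr m).Reachable (Sum.inl (p, i)) (Sum.inl (q, i')) := by
    intro p q i i'
    by_cases hne : p.1 = q.1
    · have hex : ∀ j : Fin 5, ∃ j' : Fin 5, j ≠ j' := by decide
      obtain ⟨j', hj'⟩ := hex p.1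
      have e1 := h1 p (j', true) i i hj'
      have e2 := h1 (j', true) q i i' (by
        intro h
        exact hj' (hne.trans h.symm))
      exact e1.trans e2
    · exact h1 p q i i' hne
  have h3 : ∀ (a : Clause × Fin m), ∃ p, (gr m).Reachable (Sum.inr a) (Sum.inl p) := by
    intro a
    have hc := lit_cl a.1
    have hne : (Finset.univ.filter (fun p : Fin 5 × Bool => dg a.1.1 p.1 = code p.2)).Nonempty := by
      rw [← Finset.card_pos]
      omega
    obtain ⟨p, hp⟩ := hne
    rw [Finset.mem_filter] at hp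
    have e : (gr m).Adj (Sum.inr a) (Sum.inl (p, ⟨0, h12⟩)) := hp.2
    exact ⟨_, e.reachable⟩
  have h4 : ∀ v : Vert m, ∃ p, (gr m).Reachable v (Sum.inl p) := by
    intro v
    rcases v with p | a
    · exact ⟨p, SimpleGraph.Reachable.refl _⟩
    · exact h3 a
  have : Nonempty (Vert m) := ⟨Sum.inl ((0, true), ⟨0, h12⟩)⟩
  refine ⟨?_⟩
  intro u v
  obtain ⟨p, hp⟩ := h4 u
  obtain ⟨q, hq⟩ := h4 v
  exact hp.trans ((h2 p.1 q.1 p.2 q.2).trans hq.symm)

/-- For every `m ≥ 1` there is a connected `36m`-regular graph (on `200m` vertices) whose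
independent domination number is at least `61m` while its saturation number is at most `60m`. -/
theorem result : ∀ m : ℕ, 1 ≤ m →
    ∃ (V : Type) (_ : Fintype V) (G : SimpleGraph V) (_ : DecidableRel G.Adj),
      Fintype.card V = 200 * m ∧ G.Connected ∧ G.IsRegularOfDegree (36 * m) ∧
      saturationNumber G ≤ 60 * m ∧ 61 * m ≤ indepDominationNumber G := by
  intro m hm
  refine ⟨Vert m, inferInstance, gr m, inferInstance, ?_, connected m hm, regular m,
    saturation_le m, indepDom_ge m hm⟩
  have hcl : Fintype.card Clause = 80 := by decide +kernel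
  simp only [Vert, Fintype.card_sum, Fintype.card_prod, Fintype.card_fin, Fintype.card_bool, hcl]
  ring

end Pool.Agent.Results.MP_763dcb_co.RegularCounterexample
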